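import Pool.Agent.H38.SE.All

/-!
# MP_eaeaf5_lc: boldface `Σ¹₄` separation without `Π¹₄` reduction in a generic extension of `L`

The definitions used by the statement are in `Pool/Agent/H9/SE/Stmt.lean` (`PSR.Separation`,
`PSR.ReductionLight`, `PSR.ReductionBold` and the pointclasses) and `Pool/Agent/H45/SF/Stmt.lean`
(`SF.V`, `SF.ZFC`, `SF.LA`, `SF.IsPo`, `SF.Gen`, `SF.Ext`).
-/

open Ordinal

/-- There is a countable level `L_τ` of the constructible hierarchy which is a model of ZFC, and in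
every such `L_τ` there is a forcing notion such that in all generic extensions boldface `Σ¹₄` has
the separation property while lightface `Π¹₄` and boldface `Π¹₄` do not have the reduction
property. -/
theorem Pool.Agent.Results.MP_eaeaf5_lc.SeparationWithoutReduction.result :
    (∃ τ : Ordinal.{0}, ((SF.LA ∅ τ : SF.V) : Set SF.V).Countable ∧ SF.ZFC (· ∈ SF.LA ∅ τ)) ∧
    ∀ τ : Ordinal.{0}, ((SF.LA ∅ τ : SF.V) : Set SF.V).Countable → SF.ZFC (· ∈ SF.LA ∅ τ) →
      ∃ c ∈ SF.LA ∅ τ, ∃ r ∈ SF.LA ∅ τ, SF.IsPo c r ∧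
        ∀ G, SF.Gen (· ∈ SF.LA ∅ τ) c r G →
          PSR.Separation (SF.Ext (· ∈ SF.LA ∅ τ) G) ∧
          ¬ PSR.ReductionLight (SF.Ext (· ∈ SF.LA ∅ τ) G) ∧
          ¬ PSR.ReductionBold (SF.Ext (· ∈ SF.LA ∅ τ) G) :=
  SE.All.aZZ
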